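import Pool.Agent.H2.Token3

namespace Pool.Agent.Results.MP_a6415b_co.Unbounded

open Pool.Agent.H2.Token

theorem result : ∀ c : ℝ, ∃ (n : ℕ) (G : SimpleGraph (Fin n)), ∀ w : ℕ, 2 ≤ w →
    c * w ≤ value G w := by
  intro c
  obtain ⟨j, hj⟩ := exists_nat_ge (6 * c)
  refine ⟨_, bitGraph (tower (steps j)), fun w hw => ?_⟩
  have h1 := lower j w
  have h2 : w ≤ 3 * (w / 2) := by omega
  have h3 : (j+1) * w ≤ 6 * value (bitGraph (tower (steps j))) w := by nlinarith
  have h4 : ((j:ℝ)+1) * w ≤ 6 * value (bitGraph (tower (steps j))) w := by exact_mod_cast h3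
  have h5 : (0:ℝ) ≤ w := Nat.cast_nonneg w
  nlinarith

end Pool.Agent.Results.MP_a6415b_co.Unbounded
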